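import Pool.Agent.Q102.HL.Add

/-!
# Adding few points destroys most halving lines

Definitions (in `Pool/Agent/W296/HL3.lean`, namespace `Pool.Agent.W296.HL`):

* `Line a b c = {p | a * p.1 + b * p.2 = c}`,
* `GeneralPosition P`: no three distinct points of `P` on a common line,
* `IsBisector P L`: `L` is a line through two distinct points of `P` with exactly
  `|P| / 2 - 1` points of `P` on each open side.
-/

set_option autoImplicit false

open Finset

namespace Pool.Agent.Results.MP_e17eac_co.AddFewPoints

open Pool.Agent.W296.HL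

/-- Let `P` be a set of `n` points of the plane in general position, `n` even, and let
`0 < δ ≤ 1`. Then at most `δ n` points can be added to `P` so that the new set `Q` is in general
position, has an even number of points and has at most `39 n (1 / δ) ^ (1 / 3)` bisectors. -/
theorem result : ∀ P : Finset (ℝ × ℝ), GeneralPosition P → Even #P → ∀ δ : ℝ, 0 < δ → δ ≤ 1 →
    ∃ Q, P ⊆ Q ∧ GeneralPosition Q ∧ Even #Q ∧ (#Q : ℝ) ≤ (1 + δ) * #P ∧
      ({L | IsBisector Q L}.ncard : ℝ) ≤ 39 * #P * (1 / δ) ^ (1 / 3 : ℝ) :=
  fun _ hP hE _ h0 h1 => Pool.Agent.Q102.HL.few_additions (gen_of_gp hP) hE h0 h1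

end Pool.Agent.Results.MP_e17eac_co.AddFewPoints
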