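import Pool.Agent.Q102.HL.Count

/-!
# Halving lines of a random subset of a planar point set

Definitions (in `Pool/Agent/W296/HL3.lean`, namespace `Pool.Agent.W296.HL`):

* `Line a b c = {p | a * p.1 + b * p.2 = c}`,
* `GeneralPosition P`: no three distinct points of `P` on a common line,
* `IsBisector P L`: `L` is a line through two distinct points of `P` with exactly
  `|P| / 2 - 1` points of `P` on each open side.
-/

set_option autoImplicit false

open Finset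

namespace Pool.Agent.Results.MP_e17eac_co.RandomSubsets

open Pool.Agent.W296.HL

/-- Let `P` be a set of `n` points of the plane in general position and let `2 ≤ m ≤ n` be even.
The average, over all `m`-point subsets `R` of `P`, of the number of bisectors of `R` is at most
`114 m ^ (7 / 6) (n / (n - m + 1)) ^ (1 / 6)`. -/
theorem result : ∀ P : Finset (ℝ × ℝ), GeneralPosition P → ∀ m : ℕ, Even m → 2 ≤ m → m ≤ #P →
    (∑ R ∈ powersetCard m P, ({L | IsBisector R L}.ncard : ℝ)) / ((#P).choose m : ℝ) ≤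
      114 * (m : ℝ) ^ (7 / 6 : ℝ) * ((#P : ℝ) / ((#P : ℝ) - m + 1)) ^ (1 / 6 : ℝ) := by
  intro P hP m hme hm2 hmP
  obtain ⟨h, rfl⟩ : ∃ h, m = 2 * h + 2 := by
    obtain ⟨r, hr⟩ := hme
    exact ⟨r - 1, by omega⟩
  have h0 := Pool.Agent.Q102.HL.subsets (gen_of_gp hP) hmP
  have hX : (0 : ℝ) < ((#P).choose (2 * h + 2) : ℝ) := by
    exact_mod_cast Nat.choose_pos hmP
  have e1 : ((#P - (2 * h + 2) + 1 : ℕ) : ℝ) = (#P : ℝ) - ((2 * h + 2 : ℕ) : ℝ) + 1 := by
    rw [Nat.cast_add, Nat.cast_sub hmP, Nat.cast_one]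
  rw [e1] at h0
  have hle : (((2 * h + 2 : ℕ) : ℝ)) ≤ (#P : ℝ) := by exact_mod_cast hmP
  have h2 : (2 : ℝ) ^ (1 / 3 : ℝ) ≤ 114 / 90 := by
    have h4 : (2 : ℝ) ≤ (114 / 90) ^ 3 := by norm_num
    have h5 := Real.rpow_le_rpow (by norm_num) h4 (show (0 : ℝ) ≤ 1 / 3 by norm_num)
    have h6 : ((114 / 90 : ℝ) ^ 3) ^ (1 / 3 : ℝ) = 114 / 90 := by
      rw [← Real.rpow_natCast, ← Real.rpow_mul (by norm_num)]
      norm_num
    rw [h6] at h5
    exact h5
  rw [div_le_iff₀ hX]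
  have h3 : (0 : ℝ) ≤ (((2 * h + 2 : ℕ) : ℝ) ^ (7 / 6 : ℝ) *
        ((#P : ℝ) / ((#P : ℝ) - ((2 * h + 2 : ℕ) : ℝ) + 1)) ^ (1 / 6 : ℝ)) * 
          ((#P).choose (2 * h + 2) : ℝ) := by
    have : (0 : ℝ) < (#P : ℝ) - ((2 * h + 2 : ℕ) : ℝ) + 1 := by linarith
    positivity
  push_cast at h0 h3 ⊢
  nlinarith [mul_le_mul_of_nonneg_right h2 h3]

end Pool.Agent.Results.MP_e17eac_co.RandomSubsets
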