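import Pool.Agent.Q115.HLBase
import Pool.Agent.Results.MP_a08d0a_co.SmoothedLevel

/-!
# Smoothed analysis of the number of halving lines

`Line`, `GeneralPosition`, `IsBisector` are as in `Pool/Agent/W296/HL3.lean`:

* `Line a b c = {p | a * p.1 + b * p.2 = c}`,
* `GeneralPosition P`: no three distinct points of the finite set `P` lie on a common line,
* `IsBisector P L`: `L` is a line through two distinct points of `P` with exactly
  `|P| / 2 - 1` points of `P` on each open side.

The points are `(a i, B i)` with arbitrary distinct abscissae `a i` and independent random ordinates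
`B i`, the law `ν i` of `B i` having density at most `D` and being supported by `[-M, M]` (the laws
may be different for different points).
-/

set_option autoImplicit false

namespace Pool.Agent.Results.MP_e17eac_co.SmoothedPoints

open Finset MeasureTheory Filter
open Pool.Agent.W296.HL (Line GeneralPosition IsBisector)
open scoped ENNReal

/-- For an even number `n` of points `(a i, B i)` with distinct abscissae and independent ordinates,
with laws of density at most `D` on `[-M, M]`, the expected number of halving lines is at most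
`8 D M n`: it is linear in `n`. -/
theorem result (n : ℕ) (hn : Even n) (a : Fin n → ℝ) (ha : Function.Injective a)
    (ν : Fin n → Measure ℝ) [∀ i, IsProbabilityMeasure (ν i)] (D M : ℝ)
    (hν : ∀ i, ∀ s t : ℝ, s ≤ t → ν i (Set.Icc s t) ≤ ENNReal.ofReal (D * (t - s)))
    (hM : ∀ i, ∀ᵐ b ∂ν i, |b| ≤ M) :
    (∀ᵐ B ∂Measure.pi ν, GeneralPosition (univ.image fun i => (a i, B i))) ∧
    AEMeasurable (fun B : Fin n → ℝ =>
      ({L | IsBisector (univ.image fun i => (a i, B i)) L}.ncard : ℝ≥0∞)) (Measure.pi ν) ∧
    ∫⁻ B, ({L | IsBisector (univ.image fun i => (a i, B i)) L}.ncard : ℝ≥0∞) ∂Measure.pi ν ≤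
      ENNReal.ofReal (8 * D * M * n) := by
  obtain ⟨h1, h2, -⟩ :=
    Pool.Agent.Results.MP_a08d0a_co.SmoothedLevel.result n a ν D M hν hM
  have hae : ∀ᵐ B ∂Measure.pi ν, GeneralPosition (univ.image fun i => (a i, B i)) ∧
      {L | IsBisector (univ.image fun i => (a i, B i)) L}.ncard =
        (Pool.Agent.Results.MP_a08d0a_co.SmoothedLevel.crossings a B (n / 2 - 1)).ncard := by
    filter_upwards [h1] with B hB
    exact ⟨Pool.Agent.Q115.HLBase.gp ha hB, Pool.Agent.Q115.HLBase.bis_eq ha hB hn⟩
  have hm := Pool.Agent.Results.MP_a08d0a_co.SmoothedLevel.measurable_crossings a (n / 2 - 1)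
  refine ⟨?_, ?_, ?_⟩
  · filter_upwards [hae] with B hB
    exact hB.1
  · refine hm.aemeasurable.congr ?_
    filter_upwards [hae] with B hB
    rw [hB.2]
  · refine le_trans (le_of_eq ?_) (h2 (n / 2 - 1))
    apply lintegral_congr_ae
    filter_upwards [hae] with B hB
    rw [hB.2]

end Pool.Agent.Results.MP_e17eac_co.SmoothedPoints
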